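import Pool.Agent.N299.DT.Stm

/-!
Project DT (MP_fb67b4_an), task ZA: orthogonal full elements `p`, `q` from products of cells.
-/

set_option autoImplicit false

noncomputable section

namespace Pool.Agent.N294.DTZA

open Pool.Agent.N299 Pool.Agent.N299.DT

/-! ### ordered products -/

/-- ordered product of the first `n` elements of a sequence -/
def yy {E : Type} [CStarAlgebra E] (g : ℕ → E) : ℕ → E
  | 0 => 1
  | n + 1 => yy g n * g n

section prod

variable {E : Type} [CStarAlgebra E]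

lemma yy_comm (g : ℕ → E) (x : E) (n : ℕ) (h : ∀ i < n, g i * x = x * g i) :
    yy g n * x = x * yy g n := by
  induction n with
  | zero => simp [yy]
  | succ n ih =>
    have h1 := ih fun i hi => h i (by omega)
    show yy g n * g n * x = x * (yy g n * g n)
    rw [mul_assoc, h n (by omega), ← mul_assoc, h1, mul_assoc]

lemma yy_star (g : ℕ → E) (n : ℕ) (hs : ∀ i, star (g i) = g i)
    (hc : ∀ i j, i ≠ j → g i * g j = g j * g i) : star (yy g n) = yy g n := by
  induction n with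
  | zero => simp [yy]
  | succ n ih =>
    show star (yy g n * g n) = yy g n * g n
    rw [star_mul, ih, hs, yy_comm g (g n) n fun i hi => hc i n (by omega)]

lemma yy_mul (g h : ℕ → E) (n : ℕ) (hc : ∀ i j, i ≠ j → g i * h j = h j * g i) :
    yy g n * yy h n = yy (fun i => g i * h i) n := by
  induction n with
  | zero => simp [yy]
  | succ n ih =>
    show yy g n * g n * (yy h n * h n) = yy (fun i => g i * h i) n * (g n * h n)
    have h1 : yy h n * g n = g n * yy h n :=
      yy_comm h (g n) n fun i hi => (hc n i (by omega)).symm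
    rw [← ih]
    calc yy g n * g n * (yy h n * h n) = yy g n * (g n * yy h n) * h n := by
          simp only [mul_assoc]
      _ = yy g n * (yy h n * g n) * h n := by rw [h1]
      _ = yy g n * yy h n * (g n * h n) := by simp only [mul_assoc]

lemma yy_zero (g : ℕ → E) (n i : ℕ) (hi : i < n) (h : g i = 0) : yy g n = 0 := by
  induction n with
  | zero => omega
  | succ n ih =>
    show yy g n * g n = 0
    rcases Nat.lt_succ_iff_lt_or_eq.1 hi with h1 | h1
    · rw [ih h1, zero_mul]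
    · rw [← h1, h, mul_zero]

lemma yy_map {F : Type} [CStarAlgebra F] (π : E →⋆ₐ[ℂ] F) (g : ℕ → E) (n : ℕ) :
    π (yy g n) = yy (fun i => π (g i)) n := by
  induction n with
  | zero => simp [yy]
  | succ n ih =>
    show π (yy g n * g n) = yy (fun i => π (g i)) n * π (g n)
    rw [map_mul, ih]

end prod

/-! ### non-vanishing in simple quotients -/

lemma yy_ne {S : Type} [CStarAlgebra S] (hPRM : S_PRM) (hAL : S_AL) (hS : Sim S) {G : Type}
    (T : ℕ → G → S) (hT : CS T) (hg : Al T Set.univ = ⊤) (g : ℕ → S)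
    (h1 : ∀ l, ∃ e, g l = T l e) (h2 : ∀ l, g l ≠ 0) (n : ℕ) :
    yy g n ≠ 0 ∧ yy g n ∈ Al T {l | l < n} := by
  obtain ⟨-, hmono, hmem, -, hcs, -⟩ := hAL S G T
  induction n with
  | zero => exact ⟨hS.1, one_mem _⟩
  | succ n ih =>
    obtain ⟨i1, i2⟩ := ih
    have hP := (hcs hT).2 hg {l | l < n}
    obtain ⟨e, he⟩ := h1 n
    have hy : g n ∈ Al T ({l | l < n}ᶜ) := by
      rw [he]
      exact hmem _ n e (by simp)
    constructor
    · intro h0
      rcases hPRM S hS _ _ hP (yy g n) i2 (g n) hy h0 with h | h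
      · exact i1 h
      · exact h2 n h
    · show yy g n * g n ∈ _
      refine mul_mem (hmono {l | l < n} {l | l < n + 1} ?_ i2) ?_
      · intro l hl
        simp only [Set.mem_ofPred_eq] at hl ⊢
        omega
      · rw [he]
        exact hmem _ n e (by simp)

lemma cell_map {m k : ℕ} {E F : Type} [CStarAlgebra E] [CStarAlgebra F] (π : E →⋆ₐ[ℂ] F)
    {V : CI m k → E} (h : CellT m k V) : CellT m k (fun g => π (V g)) where
  pos := h.pos
  sa c := by rw [← map_star, h.sa]
  orth c c' hc := by rw [← map_mul, h.orth c c' hc, map_zero]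
  full i := by
    have := congrArg π (h.full i)
    rw [map_sum, map_one] at this
    rw [← this]
    refine Finset.sum_congr rfl fun c _ => ?_
    split_ifs
    · simp only [map_sum, map_mul]
    · rw [map_zero]

lemma cell_ab {m k : ℕ} {S : Type} [CStarAlgebra S] (h1 : (1 : S) ≠ 0) {V : CI m k → S}
    (h : CellT m k V) : ∃ a b : Fin m, (a : ℕ) + 4 ≤ b ∧ V (.inl a) ≠ 0 ∧ V (.inl b) ≠ 0 := by
  classical
  have e0 : ∃ c : Fin m, V (.inl c) ≠ 0 := by
    by_contra hcon
    push Not at hcon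
    apply h1
    rw [← h.full ⟨0, h.pos⟩]
    refine Finset.sum_eq_zero fun c _ => ?_
    split_ifs
    · refine Finset.sum_eq_zero fun j _ => ?_
      rw [hcon c, mul_zero, zero_mul]
    · rfl
  have e1 : (Finset.univ.filter fun c : Fin m => V (.inl c) ≠ 0).Nonempty := by
    obtain ⟨c, hc⟩ := e0
    exact ⟨c, by simpa using hc⟩
  obtain ⟨a, ha, hmin⟩ := Finset.exists_min_image _ (fun c : Fin m => (c : ℕ)) e1
  have ha' : V (.inl a) ≠ 0 := by simpa using ha
  have hmin' : ∀ c : Fin m, (c : ℕ) < a → V (.inl c) = 0 := by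
    intro c hc
    by_contra hne
    have := hmin c (by simpa using hne)
    omega
  by_contra hcon
  push Not at hcon
  apply h1
  rw [← h.full a]
  refine Finset.sum_eq_zero fun c _ => ?_
  split_ifs with hc
  · refine Finset.sum_eq_zero fun j _ => ?_
    have hz : V (.inl c) = 0 := by
      rcases hc with hc | hc
      · exact hmin' c hc
      · exact hcon a c hc ha'
    rw [hz, mul_zero, zero_mul]
  · rfl

/-! ### the elements -/

/-- extension of an index function -/
def ext {m : ℕ} (hm : 0 < m) (c : Fin (m + 1) → Fin m) (l : ℕ) : Fin m :=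
  if h : l < m + 1 then c ⟨l, h⟩ else ⟨0, hm⟩

/-- the product of the cells `c_0, …, c_m` -/
def Y {m k : ℕ} {E : Type} [CStarAlgebra E] (hm : 0 < m) (T : ℕ → CI m k → E)
    (c : Fin (m + 1) → Fin m) : E :=
  yy (fun l => T l (.inl (ext hm c l))) (m + 1)

/-- the index set -/
def PP (m s : ℕ) : Finset (Fin (m + 1) → Fin m) :=
  Finset.univ.filter fun c => (∑ l, (c l : ℕ) + s) % (4 * m + 4) < m

/-- the element `p_s` -/
def pe {m k : ℕ} {E : Type} [CStarAlgebra E] (hm : 0 < m) (T : ℕ → CI m k → E) (s : ℕ) : E :=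
  ∑ c ∈ PP m s, Y hm T c * Y hm T c

section elem

variable {m k : ℕ} {E : Type} [CStarAlgebra E] (hm : 0 < m) (T : ℕ → CI m k → E)

lemma Y_star (hT : CS T) (hC : ∀ j, CellT m k (T j)) (c : Fin (m + 1) → Fin m) :
    star (Y hm T c) = Y hm T c :=
  yy_star _ _ (fun i => (hC i).sa _) fun i j hij => (hT i j hij _ _).1

lemma pe_star (hT : CS T) (hC : ∀ j, CellT m k (T j)) (s : ℕ) :
    star (pe hm T s) = pe hm T s := by
  unfold pe
  rw [star_sum]
  refine Finset.sum_congr rfl fun c _ => ?_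
  rw [star_mul, Y_star hm T hT hC]

lemma Y_orth (hT : CS T) (hC : ∀ j, CellT m k (T j)) (c c' : Fin (m + 1) → Fin m)
    (l : Fin (m + 1)) (h : (c l : ℕ) + 2 ≤ c' l ∨ (c' l : ℕ) + 2 ≤ c l) :
    Y hm T c * Y hm T c' = 0 := by
  unfold Y
  rw [yy_mul _ _ _ fun i j hij => (hT i j hij _ _).1]
  refine yy_zero _ _ (l : ℕ) l.2 ?_
  have e1 : ext hm c (l : ℕ) = c l := dif_pos l.2
  have e2 : ext hm c' (l : ℕ) = c' l := dif_pos l.2
  show T l (.inl (ext hm c l)) * T l (.inl (ext hm c' l)) = 0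
  rw [e1, e2]
  rcases h with h | h
  · exact (hC l).orth _ _ h
  · have h1 := (hC l).orth _ _ h
    have h2 := congrArg star h1
    rw [star_mul, (hC l).sa, (hC l).sa, star_zero] at h2
    exact h2

lemma pe_orth (hC1 : S_C1) (hT : CS T) (hC : ∀ j, CellT m k (T j)) :
    pe hm T 0 * pe hm T (2 * m + 2) = 0 := by
  unfold pe
  rw [Finset.sum_mul]
  refine Finset.sum_eq_zero fun c hc => ?_
  rw [Finset.mul_sum]
  refine Finset.sum_eq_zero fun c' hc' => ?_
  have h1 : (∑ l, (c l : ℕ)) % (4 * m + 4) < m := by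
    simpa [PP] using hc
  have h2 : (∑ l, (c' l : ℕ) + (2 * m + 2)) % (4 * m + 4) < m := by
    simpa [PP] using hc'
  obtain ⟨l, hl⟩ := hC1 m (fun l => (c l : ℕ)) (fun l => (c' l : ℕ)) h1 h2
  have h3 := Y_orth hm T hT hC c c' l hl
  calc Y hm T c * Y hm T c * (Y hm T c' * Y hm T c')
      = Y hm T c * (Y hm T c * Y hm T c') * Y hm T c' := by simp only [mul_assoc]
    _ = 0 := by rw [h3, mul_zero, zero_mul]

lemma Y_ne (hPRM : S_PRM) (hAL : S_AL) (hC2 : S_C2) (hS : Sim E) (hT : CS T)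
    (hC : ∀ j, CellT m k (T j)) (hg : Al T Set.univ = ⊤) (s : ℕ) :
    ∃ c ∈ PP m s, Y hm T c ≠ 0 := by
  choose a b hab ha hb using fun l => cell_ab hS.1 (hC l)
  obtain ⟨c, hc, hc2⟩ := hC2 m (fun l => (a l : ℕ)) (fun l => (b l : ℕ))
    (fun l => ⟨hab l, (b l).2⟩) s
  have hcm : ∀ l, c l < m := by
    intro l
    rcases hc l with h | h
    · rw [h]; exact (a l).2
    · rw [h]; exact (b l).2
  refine ⟨fun l => ⟨c l, hcm l⟩, by simpa [PP] using hc2, ?_⟩
  -- replace the tail by non-zero elements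
  let c' : ℕ → Fin m := fun l => if h : l < m + 1 then ⟨c ⟨l, h⟩, hcm _⟩ else a l
  have h1 : ∀ n ≤ m + 1, yy (fun l => T l (.inl (ext hm (fun l => ⟨c l, hcm l⟩) l))) n
      = yy (fun l => T l (.inl (c' l))) n := by
    intro n
    induction n with
    | zero => intro _; rfl
    | succ n ih =>
      intro hn
      have e : ext hm (fun l => (⟨c l, hcm l⟩ : Fin m)) n = c' n := by
        have : n < m + 1 := by omega
        have e1 : ext hm (fun l => (⟨c l, hcm l⟩ : Fin m)) n = ⟨c ⟨n, this⟩, hcm _⟩ := dif_pos this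
        have e2 : c' n = ⟨c ⟨n, this⟩, hcm _⟩ := dif_pos this
        rw [e1, e2]
      show yy _ n * T n (.inl (ext hm _ n)) = yy _ n * T n (.inl (c' n))
      rw [ih (by omega), e]
  unfold Y
  rw [h1 (m + 1) le_rfl]
  refine (yy_ne hPRM hAL hS T hT hg (fun l => T l (.inl (c' l))) (fun l => ⟨_, rfl⟩) ?_
    (m + 1)).1
  intro l
  by_cases h : l < m + 1
  · have e : c' l = ⟨c ⟨l, h⟩, hcm _⟩ := dif_pos h
    show T l (.inl (c' l)) ≠ 0
    rw [e]
    rcases hc ⟨l, h⟩ with h3 | h3
    · have : (⟨c ⟨l, h⟩, hcm _⟩ : Fin m) = a l := Fin.ext h3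
      rw [this]; exact ha l
    · have : (⟨c ⟨l, h⟩, hcm _⟩ : Fin m) = b l := Fin.ext h3
      rw [this]; exact hb l
  · have e : c' l = a l := dif_neg h
    show T l (.inl (c' l)) ≠ 0
    rw [e]; exact ha l

lemma Y_map {F : Type} [CStarAlgebra F] (π : E →⋆ₐ[ℂ] F) (c : Fin (m + 1) → Fin m) :
    π (Y hm T c) = Y hm (fun j g => π (T j g)) c := yy_map π _ _

end elem

lemma sum_sq_zero {S : Type} [CStarAlgebra S] {ι : Type} (s : Finset ι) (z : ι → S)
    (hz : ∀ i, star (z i) = z i) (h : ∑ i ∈ s, z i * z i = 0) : ∀ i ∈ s, z i = 0 := by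
  let _ : PartialOrder S := CStarAlgebra.spectralOrder S
  let _ : StarOrderedRing S := CStarAlgebra.spectralOrderedRing S
  intro i hi
  have h1 : ∀ j ∈ s, 0 ≤ z j * z j := by
    intro j _
    have := star_mul_self_nonneg (z j)
    rwa [hz j] at this
  have h2 := (Finset.sum_eq_zero_iff_of_nonneg h1).1 h i hi
  rw [← CStarRing.star_mul_self_eq_zero_iff, hz i, h2]

lemma pe_ne {m k : ℕ} (hm : 0 < m) (hPRM : S_PRM) (hAL : S_AL) (hC2 : S_C2) {E S : Type}
    [CStarAlgebra E] [CStarAlgebra S] (hS : Sim S) (T : ℕ → CI m k → E) (hT : CS T)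
    (hC : ∀ j, CellT m k (T j)) (hg : Al T Set.univ = ⊤) (π : E →⋆ₐ[ℂ] S)
    (hπ : Function.Surjective π) (s : ℕ) : π (pe hm T s) ≠ 0 := by
  intro h0
  have hT' : CS (fun j g => π (T j g)) := by
    intro j l hjl i i'
    obtain ⟨h1, h2⟩ := hT j l hjl i i'
    constructor
    · simp only [← map_mul, h1]
    · simp only [← map_mul, ← map_star, h2]
  have hC' : ∀ j, CellT m k (fun g => π (T j g)) := fun j => cell_map π (hC j)
  have hg' : Al (fun j g => π (T j g)) Set.univ = ⊤ :=
    ((hAL E _ T).2.2.2.2.2 S π Set.univ).2 hπ hg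
  obtain ⟨c, hc, hne⟩ := Y_ne hm (fun j g => π (T j g)) hPRM hAL hC2 hS hT' hC' hg' s
  apply hne
  refine sum_sq_zero (PP m s) (fun c => Y hm (fun j g => π (T j g)) c)
    (fun c => Y_star hm _ hT' hC' c) ?_ c hc
  rw [← h0]
  unfold pe
  rw [map_sum]
  refine Finset.sum_congr rfl fun c _ => ?_
  rw [map_mul, Y_map]

theorem t_ZA (hSQ : S_SQ) (hPRM : S_PRM) (hAL : S_AL) (hC1 : S_C1) (hC2 : S_C2) : S_ZA := by
  intro m k E _ h1 T hT hC hg
  have hm : 0 < m := (hC 0).pos
  set p := pe hm T 0 with hp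
  set q := pe hm T (2 * m + 2) with hq
  have hcert : Cert (fun y : E => q * y * p) := by
    by_contra hcon
    obtain ⟨S, _, π, hS, hπ, hz⟩ := hSQ E E _ hcon
    have hpn : π p ≠ 0 := pe_ne hm hPRM hAL hC2 hS T hT hC hg π hπ 0
    have hqn : π q ≠ 0 := pe_ne hm hPRM hAL hC2 hS T hT hC hg π hπ (2 * m + 2)
    obtain ⟨n, a, b, hab⟩ := hS.2 _ hqn
    apply hpn
    rw [← one_mul (π p), ← hab, Finset.sum_mul]
    refine Finset.sum_eq_zero fun i _ => ?_
    obtain ⟨y, hy⟩ := hπ (b i)
    have h2 := hz y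
    simp only [map_mul] at h2
    rw [hy] at h2
    rw [mul_assoc, mul_assoc, ← mul_assoc (π q), h2, mul_zero]
  obtain ⟨K, t, a, b, hab⟩ := hcert
  refine ⟨K, fun i => match i with
    | .inl false => p
    | .inl true => q
    | .inr (r, j) => if r = 0 then a j else if r = 1 then t j else b j, ?_⟩
  refine ⟨pe_star hm T hT hC 0, pe_star hm T hT hC _, pe_orth hm T hC1 hT hC, ?_⟩
  rw [← hab]
  refine Finset.sum_congr rfl fun j _ => ?_
  simp [mul_assoc]

end Pool.Agent.N294.DTZA
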